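import Pool.Agent.N694.PW.Pos

/-!
Prime tuples between consecutive powers (helper694): the coloured theorem for a positive proportion of the
intervals.
-/

set_option autoImplicit false

namespace Pool.Agent.N694.PW

open Finset Filter Topology
open Pool.Agent.Y827.GS
open Pool.Agent.Y827.RO

open Classical in
/-- the upper bound for the values of the rough systems -/
theorem upS {T K : ℕ} (H : Fin T → Fin K → ℤ)
    (hinj : Function.Injective (fun x : Fin T × Fin K => H x.1 x.2)) (δ : ℝ) (hδ : 0 < δ) (s : ℕ) :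
    ∃ C : ℝ, 0 < C ∧ ((∀ g i, H g i + s ≠ 0) → ∀ᶠ X : ℕ in atTop, ∀ A : ℕ,
      (((Ioc A (A + X)).filter (fun n : ℕ =>
        (∀ p : ℕ, p.Prime → Real.log p ≤ δ * Real.log X → ¬ (p : ℤ) ∣ (n : ℤ) - s) ∧
        (∀ g i, ∀ p : ℕ, p.Prime → Real.log p ≤ δ * Real.log X → ¬ (p : ℤ) ∣ (n : ℤ) + H g i))).card : ℝ) ≤
        C * (X / Real.log X ^ (T * K + 1))) := by
  by_cases hs : ∀ g i, H g i + s ≠ 0
  swap
  · exact ⟨1, one_pos, fun h => absurd h hs⟩
  set F : Finset (ℤ × ℤ) := insert ((1 : ℤ), -(s : ℤ))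
    ((univ : Finset (Fin T × Fin K)).image (fun x => ((1 : ℤ), H x.1 x.2))) with hF
  have hFc : F.card = T * K + 1 := by
    rw [hF, card_insert_of_notMem, card_image_of_injective, card_univ, Fintype.card_prod, Fintype.card_fin,
      Fintype.card_fin]
    · intro x y hxy
      exact hinj (Prod.mk.inj hxy).2
    · intro h
      obtain ⟨x, -, hx⟩ := mem_image.1 h
      have h1 : H x.1 x.2 = -(s : ℤ) := (Prod.mk.inj hx).2
      apply hs x.1 x.2
      rw [h1]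
      ring
  have hF1 : ∀ f ∈ F, f.1 = 1 := by
    intro f hf
    rw [hF, mem_insert, mem_image] at hf
    rcases hf with rfl | ⟨x, -, rfl⟩ <;> rfl
  obtain ⟨C, hC0, hC⟩ := upI F (fun f hf => by rw [hF1 f hf]; norm_num) (fun f hf g hg hne h => by
    rw [hF1 f hf, hF1 g hg] at h
    apply hne
    refine Prod.ext (by rw [hF1 f hf, hF1 g hg]) ?_
    linarith) δ hδ
  refine ⟨C, hC0, fun _ => ?_⟩
  filter_upwards [hC] with X hX A
  rw [← hFc]
  refine le_trans ?_ (hX A)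
  rw [Nat.cast_le]
  apply card_le_card
  intro n hn
  rw [mem_filter] at hn ⊢
  refine ⟨hn.1, fun f hf p hp hpl => ?_⟩
  rw [hF, mem_insert, mem_image] at hf
  rcases hf with rfl | ⟨x, -, rfl⟩
  · have h1 := hn.2.1 p hp hpl
    show ¬ (p : ℤ) ∣ 1 * (n : ℤ) + -(s : ℤ)
    rwa [one_mul, ← sub_eq_add_neg]
  · have h1 := hn.2.2 x.1 x.2 p hp hpl
    show ¬ (p : ℤ) ∣ 1 * (n : ℤ) + H x.1 x.2
    rwa [one_mul]

open Classical in
/-- **the coloured theorem for the intervals between consecutive powers** -/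
theorem hitP (e : ℕ) (he : 1 ≤ e) (T : ℕ) : ∃ K z : ℕ, 1 ≤ K ∧ (1 ≤ T → ∀ H : Fin T → Fin K → ℤ,
    Function.Injective (fun x : Fin T × Fin K => H x.1 x.2) →
    (∀ g i, ((Nat.factorial z : ℕ) : ℤ) ∣ H g i) → ∃ (c : ℝ) (C : ℕ), 0 < c ∧ ∀ᶠ X : ℕ in atTop,
    ∃ (S : Finset (Fin T)) (σ : Fin T → Fin K), (T : ℝ) ≤ (18 / 5) * (S.card : ℝ) ∧
      GP e c C X (S.image (fun g => H g (σ g)))) := by
  rcases Nat.eq_zero_or_pos T with hT0 | hT
  · subst hT0
    exact ⟨1, 0, le_rfl, fun h => absurd h (by norm_num)⟩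
  obtain ⟨M, hM1, hM2⟩ := ceilM T hT
  obtain ⟨K, hK, δ, hδ, H0⟩ := lamR0 T M hT hM1
  refine ⟨K, T * K, hK, fun _ H hinj hdv => ?_⟩
  obtain ⟨H', hH'⟩ : ∃ H' : Fin T → Fin K → ℤ × ℤ, H' = fun g i => ((1 : ℤ), H g i) := ⟨_, rfl⟩
  have hinj' : Function.Injective (fun x : Fin T × Fin K => H' x.1 x.2) := by
    intro x y hxy
    rw [hH'] at hxy
    exact hinj (Prod.mk.inj hxy).2
  obtain ⟨A, hA⟩ := adf_ev (univ.image (fun x : Fin T × Fin K => H' x.1 x.2)) (by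
    intro f hf
    obtain ⟨x, -, rfl⟩ := mem_image.1 hf
    rw [hH']
    exact ⟨one_pos, isCoprime_one_left⟩)
  obtain ⟨s₀, c₀, hc₀, H1⟩ := H0 A
  obtain ⟨k, hk⟩ : ∃ k, k = T * K + 1 := ⟨_, rfl⟩
  obtain ⟨R₀, hR₀⟩ : ∃ R₀ : ℕ, ∀ g i, |H g i| ≤ R₀ := by
    refine ⟨∑ g, ∑ i, (H g i).natAbs, fun g i => ?_⟩
    have h1 : (H g i).natAbs ≤ ∑ g, ∑ i, (H g i).natAbs := by
      refine (single_le_sum (f := fun i => (H g i).natAbs) (fun _ _ => Nat.zero_le _) (mem_univ i)).trans ?_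
      exact single_le_sum (f := fun g => ∑ i, (H g i).natAbs) (fun _ _ => Nat.zero_le _) (mem_univ g)
    rw [← Int.natCast_natAbs]
    exact_mod_cast h1
  choose Cs hCs0 hCs using fun s : ℕ => upS H hinj δ hδ s
  obtain ⟨CC, hCC⟩ : ∃ CC : ℝ, CC = ∑ s ∈ range (s₀ + 1), Cs s := ⟨_, rfl⟩
  have hCC0 : 0 < CC := by
    rw [hCC]
    exact sum_pos (fun s _ => hCs0 s) ⟨0, mem_range.2 (by omega)⟩
  have hCle : ∀ s ≤ s₀, Cs s ≤ CC := by
    intro s hs
    rw [hCC]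
    exact single_le_sum (f := Cs) (fun s _ => (hCs0 s).le) (mem_range.2 (by omega))
  have he1 : (0 : ℝ) < (e : ℝ) + 1 := by positivity
  obtain ⟨B, hB⟩ : ∃ B : ℝ, B = CC * (e + 1) := ⟨_, rfl⟩
  obtain ⟨c, hc⟩ : ∃ c : ℝ, c = c₀ / (2 * ((e : ℝ) + 1) ^ k) := ⟨_, rfl⟩
  have hB0 : 0 < B := by rw [hB]; positivity
  have hc0 : 0 < c := by rw [hc]; positivity
  refine ⟨c / B, k + 1, by positivity, ?_⟩
  have t1 : Tendsto (fun X : ℕ => X ^ (e + 1)) atTop atTop := tendsto_pow_atTop (by omega)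
  have t2 : Tendsto (fun X : ℕ => (e + 1) * X ^ e) atTop atTop := by
    refine tendsto_atTop_mono (fun X => ?_) (tendsto_pow_atTop (α := ℕ) (n := e) (by omega))
    show X ^ e ≤ (e + 1) * X ^ e
    exact Nat.le_mul_of_pos_left _ (by omega)
  have hupall : ∀ᶠ X : ℕ in atTop, ∀ s ∈ range (s₀ + 1), (∀ g i, H g i + s ≠ 0) → ∀ A : ℕ,
      (((Ioc A (A + X)).filter (fun n : ℕ =>
        (∀ p : ℕ, p.Prime → Real.log p ≤ δ * Real.log X → ¬ (p : ℤ) ∣ (n : ℤ) - s) ∧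
        (∀ g i, ∀ p : ℕ, p.Prime → Real.log p ≤ δ * Real.log X → ¬ (p : ℤ) ∣ (n : ℤ) + H g i))).card : ℝ) ≤
        Cs s * (X / Real.log X ^ (T * K + 1)) := by
    rw [Filter.eventually_all_finset]
    intro s _
    by_cases hs : ∀ g i, H g i + s ≠ 0
    · filter_upwards [hCs s hs] with X hX _
      exact hX
    · exact Eventually.of_forall fun X h => absurd h hs
  filter_upwards [t1.eventually H1, t1.eventually hA, t2.eventually hupall,
    ev_small e k he c ((2 * R₀ + 1 : ℕ) : ℝ) hc0, eventually_ge_atTop (1024 + e + 1)] with X hX1 hX2 hX3 hX4 hX5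
  obtain ⟨s, S, σ, hs, hs1, -, hS, hcard⟩ := hX1 H' hinj'
    (fun g i => hX2 _ (mem_image.2 ⟨(g, i), mem_univ _, rfl⟩)) (by
      intro p hp hpk
      refine ⟨1, fun g i hd => ?_⟩
      have h1 : (p : ℤ) ∣ H g i := (Int.natCast_dvd_natCast.2 ((Nat.Prime.dvd_factorial hp).2 hpk)).trans
        (hdv g i)
      have h2 : (p : ℤ) ∣ 1 + H g i := by
        rw [hH'] at hd
        simpa using hd
      exact (Nat.prime_iff_prime_int.1 hp).not_dvd_one ((dvd_add_left h1).1 h2))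
  have hX0 : (0 : ℝ) < X := by exact_mod_cast (by omega : 0 < X)
  have hX3r : (3 : ℝ) ≤ X := by exact_mod_cast (by omega : 3 ≤ X)
  have hlogX : 0 < Real.log X := Real.log_pos (by linarith)
  have hX1r : (1 : ℝ) ≤ X := by linarith
  have hs1' : ∀ g i, H g i + s ≠ 0 := by
    intro g i h
    apply hs1 g i
    rw [hH']
    show H g i + 1 * (s : ℤ) = 0
    rw [one_mul]
    exact h
  refine ⟨S, σ, hM2.trans (mul_le_mul_of_nonneg_left (by exact_mod_cast hS) (by norm_num)), ?_⟩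
  refine pigeon e k X R₀ he (by omega) (Rs H' δ s S σ (X ^ (e + 1))) _ B c hB0 hc0 ?_ ?_ ?_ ?_ hX4
  · intro m hm
    unfold Rs at hm
    obtain ⟨h1, h2, -, -, h5⟩ := mem_filter.1 hm
    rw [mem_Icc] at h1
    refine ⟨h1.1, h1.2, h2, fun v hv => ?_⟩
    obtain ⟨g, hg, rfl⟩ := mem_image.1 hv
    have h6 := h5 g hg
    rw [hH'] at h6
    simpa using h6
  · intro v hv
    obtain ⟨g, -, rfl⟩ := mem_image.1 hv
    exact hR₀ _ _
  · intro A'
    have h1 := hX3 s (mem_range.2 (by omega)) hs1' A'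
    have hXe : X ≤ (e + 1) * X ^ e := by
      calc X = X ^ 1 := (pow_one X).symm
        _ ≤ X ^ e := Nat.pow_le_pow_right (by omega) he
        _ ≤ (e + 1) * X ^ e := Nat.le_mul_of_pos_left _ (by omega)
    have hXN : (e + 1) * X ^ e ≤ X ^ (e + 1) := by
      rw [pow_succ, mul_comm (X ^ e)]
      exact Nat.mul_le_mul_right _ (by omega)
    have hXe0 : (0 : ℝ) < (((e + 1) * X ^ e : ℕ) : ℝ) := lt_of_lt_of_le hX0 (by exact_mod_cast hXe)
    have hl1 : Real.log X ≤ Real.log (((e + 1) * X ^ e : ℕ) : ℝ) := Real.log_le_log hX0 (by exact_mod_cast hXe)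
    have hl2 : Real.log (((e + 1) * X ^ e : ℕ) : ℝ) ≤ Real.log ((X ^ (e + 1) : ℕ) : ℝ) :=
      Real.log_le_log hXe0 (by exact_mod_cast hXN)
    have h2 : (((Rs H' δ s S σ (X ^ (e + 1))).filter (fun m => m ∈ Ioc A' (A' + (e + 1) * X ^ e))).card : ℝ) ≤
        Cs s * ((((e + 1) * X ^ e : ℕ) : ℝ) / Real.log (((e + 1) * X ^ e : ℕ) : ℝ) ^ (T * K + 1)) := by
      refine le_trans ?_ h1
      rw [Nat.cast_le]
      apply card_le_card
      intro m hm
      obtain ⟨h3, h4⟩ := mem_filter.1 hm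
      unfold Rs at h3
      obtain ⟨-, -, h5, h6, -⟩ := mem_filter.1 h3
      refine mem_filter.2 ⟨h4, fun p hp hpl => ?_, fun g i p hp hpl => ?_⟩
      · exact h5 p hp (hpl.trans (mul_le_mul_of_nonneg_left hl2 hδ.le))
      · have h7 := h6 g i p hp (hpl.trans (mul_le_mul_of_nonneg_left hl2 hδ.le))
        rw [hH'] at h7
        simpa using h7
    refine h2.trans ?_
    rw [hB, ← hk]
    have h3 : (((e + 1) * X ^ e : ℕ) : ℝ) / Real.log (((e + 1) * X ^ e : ℕ) : ℝ) ^ k ≤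
        ((e : ℝ) + 1) * ((X : ℝ) ^ e / Real.log X ^ k) := by
      have h4 : Real.log X ^ k ≤ Real.log (((e + 1) * X ^ e : ℕ) : ℝ) ^ k := pow_le_pow_left₀ hlogX.le hl1 k
      calc (((e + 1) * X ^ e : ℕ) : ℝ) / Real.log (((e + 1) * X ^ e : ℕ) : ℝ) ^ k ≤
            (((e + 1) * X ^ e : ℕ) : ℝ) / Real.log X ^ k :=
            div_le_div_of_nonneg_left hXe0.le (by positivity) h4
        _ = _ := by push_cast; ring
    calc Cs s * ((((e + 1) * X ^ e : ℕ) : ℝ) / Real.log (((e + 1) * X ^ e : ℕ) : ℝ) ^ k) ≤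
          CC * (((e : ℝ) + 1) * ((X : ℝ) ^ e / Real.log X ^ k)) :=
          mul_le_mul (hCle s hs) h3 (div_nonneg hXe0.le (by
            have : 0 ≤ Real.log (((e + 1) * X ^ e : ℕ) : ℝ) := hlogX.le.trans hl1
            positivity)) hCC0.le
      _ = _ := by ring
  · refine le_trans (le_of_eq ?_) hcard
    have h1 : Real.log ((X ^ (e + 1) : ℕ) : ℝ) = ((e : ℝ) + 1) * Real.log X := by
      push_cast
      rw [Real.log_pow]
      push_cast
      ring
    rw [h1, ← hk, hc, mul_pow]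
    push_cast
    rw [pow_succ]
    have : (0 : ℝ) < ((e : ℝ) + 1) ^ k := by positivity
    have : (0 : ℝ) < Real.log X ^ k := by positivity
    field_simp

end Pool.Agent.N694.PW
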