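import Pool.Agent.N646.BX.All
import Pool.Agent.N694.PW.Hit

/-!
Prime tuples between consecutive powers (helper694): almost cliques and boxes of shifts.
-/

set_option autoImplicit false

namespace Pool.Agent.N694.PW

open Finset Filter Topology
open Pool.Agent.N646.AC
open Pool.Agent.N646.BX

open Classical in
/-- one almost complete set for each large `X` -/
theorem clqP (k : ℕ) (ε : ℝ) (hε : 0 < ε) (e : ℕ) (he : 1 ≤ e) : ∃ z n₀ : ℕ, ∀ V : Finset ℤ,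
    (∀ x ∈ V, ((Nat.factorial z : ℕ) : ℤ) ∣ x) → n₀ ≤ V.card → ∃ (c : ℝ) (C : ℕ), 0 < c ∧
    ∀ᶠ N : ℕ in atTop, ∃ A ⊆ V, (5 / 18 - ε) * (V.card : ℝ) ≤ (A.card : ℝ) ∧
      ((badT k A (GP e c C N)).card : ℝ) ≤ ε * (V.card : ℝ) ^ (k + 1) := by
  choose Kf zf hKf1 hKf using hitP e he
  obtain ⟨M, n₀, hcl⟩ := wclique (lam := 18 / 5) (by norm_num) k ε hε 1 le_rfl Kf
  refine ⟨∑ T' ∈ range (M + 1), zf T', n₀, ?_⟩
  intro V hV hn0
  have hex : ∀ (T' : Fin (M + 1)) (H : Fin (T' : ℕ) → Fin (Kf T') → {x // x ∈ V}), ∃ cC : ℝ × ℕ, 0 < cC.1 ∧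
      (1 ≤ (T' : ℕ) → Function.Injective (fun x : Fin (T' : ℕ) × Fin (Kf T') => H x.1 x.2) →
      ∀ᶠ N : ℕ in atTop, ∃ (S : Finset (Fin (T' : ℕ))) (c : Fin (T' : ℕ) → Fin (Kf T')),
        (((T' : ℕ) : ℝ)) ≤ (18 / 5) * (S.card : ℝ) ∧
        GP e cC.1 cC.2 N (S.image (fun g => (H g (c g)).1))) := by
    intro T' H
    by_cases h1 : 1 ≤ (T' : ℕ) ∧
        Function.Injective (fun x : Fin (T' : ℕ) × Fin (Kf T') => H x.1 x.2)
    swap
    · exact ⟨(1, 0), one_pos, fun h2 h3 => absurd ⟨h2, h3⟩ h1⟩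
    obtain ⟨h1, h2⟩ := h1
    obtain ⟨c, C, hc, hC⟩ := hKf T' h1 (fun g i => (H g i).1) (fun x y hxy => h2 (Subtype.ext hxy))
      (fun g i => by
        refine dvd_trans ?_ (hV _ (H g i).2)
        rw [Int.natCast_dvd_natCast]
        exact Nat.factorial_dvd_factorial
          (Finset.single_le_sum (f := fun T' => zf T') (fun _ _ => Nat.zero_le _) (mem_range.2 T'.2)))
    exact ⟨(c, C), hc, fun _ _ => hC⟩
  choose Cf hCf0 hCf using hex
  -- a common exponent and a common constant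
  obtain ⟨C, hCle⟩ : ∃ C : ℕ, ∀ (T' : Fin (M + 1)) (H : Fin (T' : ℕ) → Fin (Kf T') → {x // x ∈ V}),
      (Cf T' H).2 ≤ C := by
    refine ⟨∑ T' : Fin (M + 1), ∑ H : Fin (T' : ℕ) → Fin (Kf T') → {x // x ∈ V}, (Cf T' H).2, ?_⟩
    intro T' H
    refine (single_le_sum (f := fun H => (Cf T' H).2) (fun _ _ => Nat.zero_le _) (mem_univ H)).trans ?_
    exact single_le_sum (f := fun T' : Fin (M + 1) =>
      ∑ H : Fin (T' : ℕ) → Fin (Kf T') → {x // x ∈ V}, (Cf T' H).2) (fun _ _ => Nat.zero_le _)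
      (mem_univ T')
  obtain ⟨cm, hcm, hcle⟩ : ∃ cm : ℝ, 0 < cm ∧ ∀ (T' : Fin (M + 1))
      (H : Fin (T' : ℕ) → Fin (Kf T') → {x // x ∈ V}), cm ≤ (Cf T' H).1 := by
    set sg : ℝ := ∑ T' : Fin (M + 1), ∑ H : Fin (T' : ℕ) → Fin (Kf T') → {x // x ∈ V}, 1 / (Cf T' H).1
      with hsg
    have h0 : ∀ (T' : Fin (M + 1)) (H : Fin (T' : ℕ) → Fin (Kf T') → {x // x ∈ V}),
        0 ≤ 1 / (Cf T' H).1 := fun T' H => by
      have := hCf0 T' H
      positivity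
    have hsg0 : 0 ≤ sg := sum_nonneg fun T' _ => sum_nonneg fun H _ => h0 T' H
    refine ⟨1 / (sg + 1), by positivity, fun T' H => ?_⟩
    have h1 : 1 / (Cf T' H).1 ≤ sg := by
      refine (single_le_sum (f := fun H => 1 / (Cf T' H).1) (fun H _ => h0 T' H) (mem_univ H)).trans ?_
      exact single_le_sum (f := fun T' : Fin (M + 1) =>
        ∑ H : Fin (T' : ℕ) → Fin (Kf T') → {x // x ∈ V}, 1 / (Cf T' H).1)
        (fun T' _ => sum_nonneg fun H _ => h0 T' H) (mem_univ T')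
    have h2 := hCf0 T' H
    rw [div_le_iff₀ (by positivity)]
    rw [div_le_iff₀ h2] at h1
    nlinarith
  refine ⟨cm, C, hcm, ?_⟩
  have hev : ∀ᶠ N : ℕ in atTop, ∀ (T' : Fin (M + 1))
      (H : Fin (T' : ℕ) → Fin (Kf T') → {x // x ∈ V}),
      1 ≤ (T' : ℕ) → Function.Injective (fun x : Fin (T' : ℕ) × Fin (Kf T') => H x.1 x.2) →
      ∃ (S : Finset (Fin (T' : ℕ))) (c : Fin (T' : ℕ) → Fin (Kf T')),
        (((T' : ℕ) : ℝ)) ≤ (18 / 5) * (S.card : ℝ) ∧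
        GP e (Cf T' H).1 (Cf T' H).2 N (S.image (fun g => (H g (c g)).1)) := by
    rw [eventually_all]
    intro T'
    rw [eventually_all]
    intro H
    by_cases h1 : 1 ≤ (T' : ℕ) ∧
        Function.Injective (fun x : Fin (T' : ℕ) × Fin (Kf T') => H x.1 x.2)
    swap
    · exact Eventually.of_forall fun x h2 h3 => absurd ⟨h2, h3⟩ h1
    filter_upwards [hCf T' H h1.1 h1.2] with N hN _ _
    exact hN
  filter_upwards [hev] with N hN
  obtain ⟨A, hA1, hA2, hA3⟩ := hcl ℤ V (GP e cm C N) hn0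
    (fun F F' hF h => GP_anti hF h) (by
      intro T' hT'1 hT'M H hHV hHinj
      obtain ⟨S, c, hS, hSc⟩ := hN ⟨T', by omega⟩ (fun g i => ⟨H g i, hHV g i⟩) hT'1 (by
        intro x y hxy
        exact hHinj (congrArg Subtype.val hxy))
      exact ⟨S, c, hS, GP_mono (hcle _ _) (hCle _ _) hSc⟩) (fun _ => 1)
    (fun _ _ => ⟨le_rfl, le_rfl⟩)
  refine ⟨A, hA1, ?_, hA3.le⟩
  simp only [sum_const, smul_eq_mul, mul_one] at hA2
  have h5 : (1 : ℝ) / (18 / 5) = 5 / 18 := by norm_num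
  rw [h5] at hA2
  exact hA2

open Classical in
/-- one family of tuples -/
theorem clqQ (k : ℕ) (ε : ℝ) (hε : 0 < ε) (e : ℕ) (he : 1 ≤ e) : ∃ z n₀ : ℕ, ∀ V : Finset ℤ,
    (∀ x ∈ V, ((Nat.factorial z : ℕ) : ℤ) ∣ x) → n₀ ≤ V.card →
    ∃ (A : Finset ℤ) (G : Finset (Fin (k + 1) → ℤ)) (c : ℝ) (C : ℕ), 0 < c ∧ A ⊆ V ∧
      (5 / 18 - ε) * (V.card : ℝ) ≤ (A.card : ℝ) ∧
      (((Fintype.piFinset (fun _ : Fin (k + 1) => A)).filter
        (fun y => Function.Injective y ∧ y ∉ G)).card : ℝ) ≤ ε * (V.card : ℝ) ^ (k + 1) ∧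
      ∃ᶠ N : ℕ in atTop, ∀ y ∈ G, GP e c C N (univ.image y) := by
  obtain ⟨z, n₀, h⟩ := clqP k ε hε e he
  refine ⟨z, n₀, fun V hV hn0 => ?_⟩
  set P : Finset (Finset ℤ × Finset (Fin (k + 1) → ℤ)) :=
    V.powerset ×ˢ (Fintype.piFinset (fun _ : Fin (k + 1) => V)).powerset with hP
  obtain ⟨c, C, hc, hC⟩ := h V hV hn0
  obtain ⟨p, hp, hfr⟩ := freq_finset P (fun p N =>
      ((5 / 18 - ε) * (V.card : ℝ) ≤ (p.1.card : ℝ) ∧
        (((Fintype.piFinset (fun _ : Fin (k + 1) => p.1)).filter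
          (fun y => Function.Injective y ∧ y ∉ p.2)).card : ℝ) ≤ ε * (V.card : ℝ) ^ (k + 1)) ∧
        ∀ y ∈ p.2, GP e c C N (univ.image y)) (by
    filter_upwards [hC] with N hN
    obtain ⟨A, hA1, hA2, hA3⟩ := hN
    refine ⟨(A, (Fintype.piFinset (fun _ : Fin (k + 1) => V)).filter
      (fun y => GP e c C N (univ.image y))), ?_, ⟨hA2, ?_⟩, fun y hy => (mem_filter.1 hy).2⟩
    · rw [hP, mem_product]
      refine ⟨mem_powerset.2 hA1, ?_⟩
      rw [mem_powerset]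
      exact filter_subset _ _
    · refine le_trans ?_ hA3
      rw [Nat.cast_le]
      apply card_le_card
      intro y hy
      obtain ⟨h1, h2, h3⟩ := mem_filter.1 hy
      unfold badT
      refine mem_filter.2 ⟨h1, h2, fun hG => h3 ?_⟩
      exact mem_filter.2 ⟨Fintype.mem_piFinset.2 fun i => hA1 (Fintype.mem_piFinset.1 h1 i), hG⟩)
  rw [hP, mem_product] at hp
  obtain ⟨N₀, hN₀⟩ := hfr.exists
  exact ⟨p.1, p.2, c, C, hc, mem_powerset.1 hp.1, hN₀.1.1, hN₀.1.2, hfr.mono fun N hN => hN.2⟩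

/-- the number of the `m` such that all the numbers `m + d i` are primes strictly between `n ^ a` and
`(n + 1) ^ a` -/
noncomputable def tq (a n : ℕ) {k : ℕ} (d : Fin (k + 1) → ℤ) : ℕ :=
  Set.ncard {m : ℕ | ∀ i, ((n ^ a : ℕ) : ℤ) < (m : ℤ) + d i ∧ (m : ℤ) + d i < (((n + 1) ^ a : ℕ) : ℤ) ∧
    ((m : ℤ) + d i).toNat.Prime}

/-- a positive proportion of the intervals between consecutive powers contains many translates of the tuple
`0, d`, at arbitrarily large scales -/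
def GoodP (a : ℕ) {k : ℕ} (d : Fin k → ℤ) : Prop := ∃ (c : ℝ) (C : ℕ), 0 < c ∧ ∃ᶠ X : ℕ in atTop,
  c * X ≤ (Set.ncard {n : ℕ | n < X ∧ 3 ≤ n ∧ (n : ℝ) ^ (a - 1) / (Real.log n) ^ C ≤
    (tq a n (Fin.cons 0 d : Fin (k + 1) → ℤ) : ℝ)} : ℝ)

theorem tp_le {e n k : ℕ} (y : Fin (k + 1) → ℤ) : tp e n (univ.image y) ≤
    tq (e + 1) n (Fin.cons 0 (fun j : Fin k => y j.succ - y 0) : Fin (k + 1) → ℤ) := by
  classical
  unfold tp tq
  rw [← Set.ncard_coe_finset]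
  set d : Fin (k + 1) → ℤ := Fin.cons 0 (fun j : Fin k => y j.succ - y 0) with hd
  have hdi : ∀ i, d i = y i - y 0 := by
    intro i
    rcases Fin.eq_zero_or_eq_succ i with h0 | ⟨j', hj'⟩
    · subst h0
      rw [hd, Fin.cons_zero, sub_self]
    · subst hj'
      rw [hd, Fin.cons_succ]
  refine Set.ncard_le_ncard_of_injOn (fun m : ℕ => ((m : ℤ) + y 0).toNat) ?_ ?_ ?_
  · intro m hm
    rw [mem_coe, mem_filter] at hm
    have h1 := fun i => hm.2 (y i) (mem_image_of_mem _ (mem_univ i))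
    have h2 : ((((m : ℤ) + y 0).toNat : ℕ) : ℤ) = (m : ℤ) + y 0 := by
      have := (h1 0).1
      apply Int.toNat_of_nonneg
      have : (0 : ℤ) ≤ ((n ^ (e + 1) : ℕ) : ℤ) := Int.natCast_nonneg _
      linarith
    intro i
    rw [h2, hdi]
    have h3 : (m : ℤ) + y 0 + (y i - y 0) = m + y i := by ring
    rw [h3]
    exact h1 i
  · intro m hm m' hm' hmm
    rw [mem_coe, mem_filter] at hm hm'
    have h1 := (hm.2 (y 0) (mem_image_of_mem _ (mem_univ 0))).1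
    have h2 := (hm'.2 (y 0) (mem_image_of_mem _ (mem_univ 0))).1
    have h3 : ((m : ℤ) + y 0).toNat = ((m' : ℤ) + y 0).toNat := hmm
    have : (0 : ℤ) ≤ ((n ^ (e + 1) : ℕ) : ℤ) := Int.natCast_nonneg _
    omega
  · apply (Set.finite_le_nat ((n + 1) ^ (e + 1))).subset
    intro m hm
    have h1 := (hm 0).2.1
    rw [hdi, sub_self, add_zero] at h1
    have h2 : m < (n + 1) ^ (e + 1) := by exact_mod_cast h1
    exact h2.le

theorem cleP (k : ℕ) (ε : ℝ) (hε : 0 < ε) (a : ℕ) (ha : 2 ≤ a) : CLe k (GoodP a) (5 / 18) ε := by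
  classical
  obtain ⟨e, he⟩ : ∃ e, a = e + 1 := ⟨a - 1, by omega⟩
  obtain ⟨z, n₀, h⟩ := clqQ k ε hε e (by omega)
  refine ⟨Nat.factorial z, n₀, Nat.factorial_pos z, ?_⟩
  intro V hV hn0
  obtain ⟨A, G, c, C, hc, hA1, hA2, hA3, hG⟩ := h V hV hn0
  refine ⟨A, hA1, hA2, le_trans ?_ hA3⟩
  rw [Nat.cast_le, ← Set.ncard_coe_finset]
  refine Set.ncard_le_ncard ?_ (Set.toFinite _)
  rintro y ⟨hy1, hy2, hy3⟩
  rw [mem_coe, mem_filter, Fintype.mem_piFinset]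
  refine ⟨hy1, hy2, fun hyG => hy3 ?_⟩
  refine ⟨c, C, hc, hG.mono fun N hN => (hN y hyG).trans ?_⟩
  rw [Nat.cast_le, ← Set.ncard_coe_finset]
  refine Set.ncard_le_ncard ?_ ((Set.finite_lt_nat N).subset fun n hn => hn.1)
  intro n hn
  rw [mem_coe, mem_filter, mem_range] at hn
  refine ⟨hn.1, hn.2.1, ?_⟩
  rw [he, Nat.add_sub_cancel]
  exact hn.2.2.trans (by exact_mod_cast tp_le y)

/-- **Boxes of shifts, between consecutive powers.** -/
theorem main (k : ℕ) (hk : 1 ≤ k) (ε : ℝ) (hε : 0 < ε) (a : ℕ) (ha : 2 ≤ a) : ∃ M : ℕ, 1 ≤ M ∧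
    ∀ N : ℕ, 1 ≤ N → M ∣ N → ∃ L : ℕ, ∀ T : ℕ, L ≤ T → ∀ c : Fin k → ℤ, (∀ j, (M : ℤ) ∣ c j) →
      ((k + 1) * (5 / 18 : ℝ) ^ k - ε) * (T : ℝ) ^ k ≤ (Pool.Agent.N646.BX.cnt (GoodP a) c N T : ℝ) := by
  obtain ⟨ε', hε', h⟩ := box_main k hk (5 / 18) (by norm_num) (by norm_num) ε hε
  exact h _ (cleP k ε' hε' a ha)

end Pool.Agent.N694.PW
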