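import Pool.Agent.Y959.Sv.Up
import Pool.Agent.Helper923.HMertens

/-!
An upper bound sieve in intervals for a fixed family of linear forms (helper694): the number of the `n` in an interval
of length `X`, wherever it lies, at which the `r` forms have no prime factor `≤ X ^ η` is `≪ X / (log X) ^ r`.
(An adaptation of Y949/DK/SV.)
-/

set_option autoImplicit false

namespace Pool.Agent.N694.PW

open Finset Filter Topology
open Pool.Agent.Y959.Sv (nu up_sieve)
open Pool.Agent.Helper923.HMertens (mertens_ratio)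

/-- `p` divides one of the values of the forms at `A + m` -/
def Qs (F : Finset (ℤ × ℤ)) (A : ℕ) (p m : ℕ) : Prop := ∃ f ∈ F, (p : ℤ) ∣ f.1 * ((A + m : ℕ) : ℤ) + f.2

theorem Qs_per (F : Finset (ℤ × ℤ)) (A p n : ℕ) : Qs F A p n ↔ Qs F A p (n % p) := by
  unfold Qs
  apply exists_congr
  intro f
  have e : f.1 * ((A + n : ℕ) : ℤ) + f.2 =
      (f.1 * ((A + n % p : ℕ) : ℤ) + f.2) + p * (f.1 * ((n / p : ℕ) : ℤ)) := by
    have h : ((n % p : ℕ) : ℤ) + p * ((n / p : ℕ) : ℤ) = n := by exact_mod_cast Nat.mod_add_div n p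
    push_cast at h ⊢
    linear_combination (-f.1) * h
  rw [e, dvd_add_left (Dvd.intro _ rfl)]

theorem nu_eq (F : Finset (ℤ × ℤ)) (A : ℕ) {p : ℕ} (hp : p.Prime) (h1 : ∀ f ∈ F, ¬ (p : ℤ) ∣ f.1)
    (h2 : ∀ f ∈ F, ∀ g ∈ F, f ≠ g → ¬ (p : ℤ) ∣ f.1 * g.2 - g.1 * f.2) :
    nu (Qs F A) p = F.card := by
  classical
  have : Fact p.Prime := ⟨hp⟩
  have hd : ∀ x : ℤ, (p : ℤ) ∣ x ↔ (x : ZMod p) = 0 := fun x => (ZMod.intCast_zmod_eq_zero_iff_dvd x p).symm
  have h10 : ∀ f ∈ F, (f.1 : ZMod p) ≠ 0 := fun f hf h => h1 f hf ((hd _).2 h)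
  unfold nu
  symm
  apply card_bij (fun f _ => (-(f.2 : ZMod p) / (f.1 : ZMod p) - (A : ZMod p)).val)
  · intro f hf
    rw [mem_filter, mem_range]
    refine ⟨ZMod.val_lt _, f, hf, ?_⟩
    rw [hd]
    push_cast
    rw [ZMod.natCast_zmod_val]
    have := h10 f hf
    field_simp
    ring
  · intro f hf g hg h
    by_contra hne
    have h3 := ZMod.val_injective p h
    have h4 : -(f.2 : ZMod p) / (f.1 : ZMod p) = -(g.2 : ZMod p) / (g.1 : ZMod p) := sub_left_injective h3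
    rw [div_eq_div_iff (h10 f hf) (h10 g hg)] at h4
    apply h2 f hf g hg hne
    rw [hd]
    push_cast
    linear_combination h4
  · intro n hn
    rw [mem_filter, mem_range] at hn
    obtain ⟨hn1, f, hf, hfd⟩ := hn
    refine ⟨f, hf, ?_⟩
    rw [hd] at hfd
    push_cast at hfd
    have h3 : (n : ZMod p) = -(f.2 : ZMod p) / (f.1 : ZMod p) - (A : ZMod p) := by
      rw [eq_sub_iff_add_eq, eq_div_iff (h10 f hf)]
      linear_combination hfd
    rw [← h3, ZMod.val_natCast_of_lt hn1]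

theorem prodP {C1 : ℝ} (hC1 : ∀ a b : ℕ, 2 ≤ a → a ≤ b →
    |∑ p ∈ (Ioc a b).filter Nat.Prime, (1 : ℝ) / p
      - Real.log (Real.log b / Real.log a)| ≤ C1 / Real.log a) (hC0 : 0 ≤ C1) (r L y : ℕ) (hL : 2 ≤ L)
    (hrL : r ≤ L) (hLy : L ≤ y) :
    ∏ p ∈ (Ioc L y).filter Nat.Prime, (1 - (r : ℝ) / p) ≤
      Real.exp (r * (2 * C1)) * (Real.log L / Real.log y) ^ r := by
  have hLr : (2 : ℝ) ≤ L := by exact_mod_cast hL
  have hLyr : (L : ℝ) ≤ y := by exact_mod_cast hLy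
  have hlogL : 1 / 2 ≤ Real.log L := by
    have h1 := Real.log_two_gt_d9
    have h2 := Real.log_le_log (by norm_num) hLr
    linarith
  have hlogy : 1 / 2 ≤ Real.log y := hlogL.trans (Real.log_le_log (by linarith) hLyr)
  have h1 : ∏ p ∈ (Ioc L y).filter Nat.Prime, (1 - (r : ℝ) / p) ≤
      ∏ p ∈ (Ioc L y).filter Nat.Prime, Real.exp (-(r : ℝ) * (1 / p)) := by
    apply Finset.prod_le_prod
    · intro p hp
      rw [mem_filter, mem_Ioc] at hp
      have hp0 : (0 : ℝ) < p := by exact_mod_cast hp.2.pos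
      have h5 : (r : ℝ) / p ≤ 1 := by
        rw [div_le_one hp0]
        exact_mod_cast hrL.trans hp.1.1.le
      linarith
    · intro p _
      have := Real.add_one_le_exp (-((r : ℝ) / p))
      have e : -(r : ℝ) * (1 / p) = -((r : ℝ) / p) := by ring
      rw [e]
      linarith
  refine h1.trans ?_
  rw [← Real.exp_sum, ← mul_sum]
  have h2 := hC1 L y hL hLy
  have h3 := (abs_le.1 h2).1
  have h4 : C1 / Real.log L ≤ 2 * C1 := by
    rw [div_le_iff₀ (by linarith)]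
    nlinarith
  have h7 : Real.log (Real.log y / Real.log L) - 2 * C1 ≤
      ∑ p ∈ (Ioc L y).filter Nat.Prime, (1 : ℝ) / p := by
    linarith
  have hr0 : (0 : ℝ) ≤ r := Nat.cast_nonneg r
  calc Real.exp (-(r : ℝ) * ∑ p ∈ (Ioc L y).filter Nat.Prime, (1 : ℝ) / p)
      ≤ Real.exp (r * (2 * C1) + r * Real.log (Real.log L / Real.log y)) := by
        apply Real.exp_le_exp.2
        have h8 : Real.log (Real.log y / Real.log L) = -Real.log (Real.log L / Real.log y) := by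
          rw [← Real.log_inv, inv_div]
        rw [h8] at h7
        nlinarith [mul_le_mul_of_nonneg_left h7 hr0]
    _ = _ := by
        rw [Real.exp_add, ← Real.log_pow, Real.exp_log (by positivity)]

theorem floor_pow' {κ : ℝ} (hκ : 0 < κ) (y₀ : ℕ) : ∀ᶠ X : ℕ in atTop,
    y₀ ≤ ⌊(X : ℝ) ^ κ⌋₊ ∧ κ / 2 * Real.log X ≤ Real.log (⌊(X : ℝ) ^ κ⌋₊ : ℕ) := by
  have tN : Tendsto (fun N : ℕ => (N : ℝ)) atTop atTop := tendsto_natCast_atTop_atTop
  have t1 : Tendsto (fun N : ℕ => (N : ℝ) ^ (κ / 2)) atTop atTop :=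
    (tendsto_rpow_atTop (by positivity)).comp tN
  filter_upwards [t1.eventually_ge_atTop (max 2 (y₀ : ℝ)), eventually_ge_atTop 1] with X h1 hX1
  have hX0 : (0 : ℝ) < X := by exact_mod_cast hX1
  set u : ℝ := (X : ℝ) ^ (κ / 2) with hu
  have hu2 : 2 ≤ u := (le_max_left _ _).trans h1
  have huy : (y₀ : ℝ) ≤ u := (le_max_right _ _).trans h1
  have e : (X : ℝ) ^ κ = u * u := by
    rw [hu, ← Real.rpow_add hX0]; congr 1; ring
  have h3 : u ≤ (⌊(X : ℝ) ^ κ⌋₊ : ℝ) := by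
    have := Nat.lt_floor_add_one ((X : ℝ) ^ κ)
    rw [e] at this ⊢
    nlinarith
  refine ⟨?_, ?_⟩
  · exact_mod_cast huy.trans h3
  · calc κ / 2 * Real.log X = Real.log u := by rw [hu, Real.log_rpow hX0]
      _ ≤ _ := Real.log_le_log (by linarith) h3

open Classical in
/-- **the upper bound sieve in intervals** -/
theorem upI (F : Finset (ℤ × ℤ)) (hF : ∀ f ∈ F, f.1 ≠ 0)
    (hFg : ∀ f ∈ F, ∀ g ∈ F, f ≠ g → f.1 * g.2 - g.1 * f.2 ≠ 0) (η : ℝ) (hη : 0 < η) :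
    ∃ C : ℝ, 0 < C ∧ ∀ᶠ X : ℕ in atTop, ∀ A : ℕ,
      (((Ioc A (A + X)).filter (fun n : ℕ => ∀ f ∈ F, ∀ p : ℕ, p.Prime → Real.log p ≤ η * Real.log X →
        ¬ (p : ℤ) ∣ f.1 * (n : ℤ) + f.2)).card : ℝ) ≤ C * (X / Real.log X ^ F.card) := by
  obtain ⟨r, hr⟩ : ∃ r, r = F.card := ⟨_, rfl⟩
  obtain ⟨K, z0, hK, hup⟩ := up_sieve r
  obtain ⟨C1, hC0, hC1⟩ := mertens_ratio
  have hK0 : (1 : ℝ) ≤ K := by exact_mod_cast hK
  obtain ⟨L, hL⟩ : ∃ L : ℕ, L = z0 + r + 2 + ∑ f ∈ F, f.1.natAbs +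
    ∑ f ∈ F, ∑ g ∈ F, (f.1 * g.2 - g.1 * f.2).natAbs := ⟨_, rfl⟩
  have hL2 : 2 ≤ L := by omega
  have hlogL : 0 ≤ Real.log L := Real.log_natCast_nonneg L
  obtain ⟨κ, hκ⟩ : ∃ κ : ℝ, κ = min η (1 / K) := ⟨_, rfl⟩
  have hκ0 : 0 < κ := by rw [hκ]; positivity
  have hκη : κ ≤ η := by rw [hκ]; exact min_le_left _ _
  have hκK : κ * K ≤ 1 := by
    rw [← le_div_iff₀ (by linarith)]
    rw [hκ]
    exact min_le_right _ _
  set B : ℝ := Real.exp (r * (2 * C1)) * (2 * Real.log L / κ) ^ r with hB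
  have hB0 : 0 ≤ B := by positivity
  have hroot : ∀ᶠ X : ℕ in atTop, √(X : ℝ) ≤ X / Real.log X ^ r := by
    have h1 : (fun x : ℝ => Real.log x ^ r) =o[atTop] (fun x : ℝ => x ^ (1 / 2 : ℝ)) := by
      have := isLittleO_log_rpow_rpow_atTop (r : ℝ) (show (0 : ℝ) < 1 / 2 by norm_num)
      simpa [Real.rpow_natCast] using this
    have h2 := (h1.bound (show (0 : ℝ) < 1 by norm_num))
    have h3 := tendsto_natCast_atTop_atTop.eventually h2
    filter_upwards [h3, eventually_ge_atTop 3] with X hX hX1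
    have hXr : (3 : ℝ) ≤ X := by exact_mod_cast hX1
    have hlog : 0 < Real.log X := Real.log_pos (by linarith)
    rw [Real.norm_of_nonneg (by positivity), Real.norm_of_nonneg (by positivity), one_mul,
      ← Real.sqrt_eq_rpow] at hX
    rw [le_div_iff₀ (by positivity)]
    calc √(X : ℝ) * Real.log X ^ r ≤ √(X : ℝ) * √(X : ℝ) :=
          mul_le_mul_of_nonneg_left hX (Real.sqrt_nonneg _)
      _ = X := Real.mul_self_sqrt (by positivity)
  refine ⟨2 * B + 1, by positivity, ?_⟩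
  filter_upwards [floor_pow' hκ0 (L + 3), hroot, eventually_ge_atTop 3] with X h1 h2 h3 A
  obtain ⟨h4, h5⟩ := h1
  set y : ℕ := ⌊(X : ℝ) ^ κ⌋₊ with hy
  have hXr : (3 : ℝ) ≤ X := by exact_mod_cast h3
  have hX0 : (0 : ℝ) < X := by linarith
  have hlogX : 0 < Real.log X := Real.log_pos (by linarith)
  have hyX : (y : ℝ) ≤ (X : ℝ) ^ κ := Nat.floor_le (by positivity)
  have hyK : y ^ K ≤ X := by
    have h6 : ((y ^ K : ℕ) : ℝ) ≤ X := by
      push_cast
      calc (y : ℝ) ^ K ≤ ((X : ℝ) ^ κ) ^ K := pow_le_pow_left₀ (Nat.cast_nonneg _) hyX K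
        _ = (X : ℝ) ^ (κ * K) := by rw [← Real.rpow_natCast, ← Real.rpow_mul hX0.le]
        _ ≤ (X : ℝ) ^ (1 : ℝ) := Real.rpow_le_rpow_of_exponent_le (by linarith) hκK
        _ = X := Real.rpow_one _
    exact_mod_cast h6
  set S := (Ioc L y).filter Nat.Prime with hS
  have hSp : ∀ p ∈ S, p.Prime := fun p hp => (mem_filter.1 hp).2
  have hSL : ∀ p ∈ S, L < p ∧ p ≤ y := fun p hp => mem_Ioc.1 (mem_filter.1 hp).1
  have hnu : ∀ p ∈ S, nu (Qs F A) p = r := by
    intro p hp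
    rw [hr]
    have hpL := (hSL p hp).1
    apply nu_eq F A (hSp p hp)
    · intro f hf hd
      have h6 := Nat.le_of_dvd (Int.natAbs_pos.2 (hF f hf)) (Int.natCast_dvd.1 hd)
      have h7 : f.1.natAbs ≤ ∑ f ∈ F, f.1.natAbs :=
        single_le_sum (f := fun f : ℤ × ℤ => f.1.natAbs) (fun _ _ => Nat.zero_le _) hf
      omega
    · intro f hf g hg hne hd
      have h6 := Nat.le_of_dvd (Int.natAbs_pos.2 (hFg f hf g hg hne)) (Int.natCast_dvd.1 hd)
      have h7 : (f.1 * g.2 - g.1 * f.2).natAbs ≤ ∑ f ∈ F, ∑ g ∈ F, (f.1 * g.2 - g.1 * f.2).natAbs := by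
        refine (single_le_sum (f := fun g : ℤ × ℤ => (f.1 * g.2 - g.1 * f.2).natAbs)
          (fun _ _ => Nat.zero_le _) hg).trans ?_
        exact single_le_sum (f := fun f : ℤ × ℤ => ∑ g ∈ F, (f.1 * g.2 - g.1 * f.2).natAbs)
          (fun _ _ => Nat.zero_le _) hf
      omega
  have key := hup y X (by omega) hyK (Qs F A) (Qs_per F A) S (by
    intro p hp
    have := hSL p hp
    exact ⟨hSp p hp, by omega, this.2, (hnu p hp).le⟩)
  have hprod' : ∏ p ∈ S, (1 - (nu (Qs F A) p : ℝ) / p) = ∏ p ∈ S, (1 - (r : ℝ) / p) := by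
    apply prod_congr rfl
    intro p hp
    rw [hnu p hp]
  rw [hprod'] at key
  have hprod := prodP hC1 hC0 r L y hL2 (by omega) (by omega)
  have hlogy : 0 < Real.log y := lt_of_lt_of_le (by positivity) h5
  have h6 : Real.exp (r * (2 * C1)) * (Real.log L / Real.log y) ^ r ≤ B / Real.log X ^ r := by
    rw [hB, mul_div_assoc, ← div_pow]
    apply mul_le_mul_of_nonneg_left _ (Real.exp_pos _).le
    apply pow_le_pow_left₀ (by positivity)
    rw [div_div, div_le_div_iff₀ hlogy (by positivity)]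
    have : κ * Real.log X ≤ 2 * Real.log y := by linarith
    nlinarith
  have h7 : (X : ℝ) * ∏ p ∈ S, (1 - (r : ℝ) / p) ≤ X * (B / Real.log X ^ r) :=
    mul_le_mul_of_nonneg_left (hprod.trans h6) hX0.le
  have hcard : (((Ioc A (A + X)).filter (fun n : ℕ => ∀ f ∈ F, ∀ p : ℕ, p.Prime →
      Real.log p ≤ η * Real.log X → ¬ (p : ℤ) ∣ f.1 * (n : ℤ) + f.2)).card : ℝ) ≤
      (((Icc 1 X).filter (fun n : ℕ => ∀ p ∈ S, ¬ Qs F A p n)).card : ℝ) := by
    rw [Nat.cast_le]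
    apply card_le_card_of_injOn (fun n => n - A)
    · intro n hn
      rw [mem_coe, mem_filter, mem_Ioc] at hn
      rw [mem_coe, mem_filter, mem_Icc]
      obtain ⟨⟨h8, h9⟩, h10⟩ := hn
      refine ⟨⟨by show 1 ≤ n - A; omega, by show n - A ≤ X; omega⟩, fun p hp => ?_⟩
      rintro ⟨f, hf, hd⟩
      have h11 : A + (n - A) = n := by omega
      rw [h11] at hd
      refine h10 f hf p (hSp p hp) ?_ hd
      have hpy : (p : ℝ) ≤ (X : ℝ) ^ κ := le_trans (by exact_mod_cast (hSL p hp).2) hyX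
      have hp0 : (0 : ℝ) < p := by exact_mod_cast (hSp p hp).pos
      calc Real.log p ≤ Real.log ((X : ℝ) ^ κ) := Real.log_le_log hp0 hpy
        _ = κ * Real.log X := Real.log_rpow hX0 κ
        _ ≤ η * Real.log X := mul_le_mul_of_nonneg_right hκη hlogX.le
    · intro n hn n' hn' h
      rw [mem_coe, mem_filter, mem_Ioc] at hn hn'
      have h8 : n - A = n' - A := h
      omega
  refine hcard.trans (key.trans ?_)
  rw [← hr]
  have h8 : 2 * ((X : ℝ) * (B / Real.log X ^ r)) = 2 * B * (X / Real.log X ^ r) := by ring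
  have h9 : (2 * B + 1) * ((X : ℝ) / Real.log X ^ r) = 2 * B * (X / Real.log X ^ r) + X / Real.log X ^ r := by ring
  rw [h9]
  linarith

end Pool.Agent.N694.PW
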