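import Pool.Agent.Y827.RO.NarF
import Pool.Agent.N694.PW.Up

/-!
Prime tuples between consecutive powers (helper694): a positive proportion of the intervals between
consecutive powers contains many translates, the coloured theorem.
-/

set_option autoImplicit false

namespace Pool.Agent.N694.PW

open Finset Filter Topology
open Pool.Agent.Y827.GS
open Pool.Agent.Y827.RO

open Classical in
/-- the number of the `m` in `(n ^ (e + 1), (n + 1) ^ (e + 1)]` such that all the numbers `m + v`, `v ∈ F`, are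
primes strictly between `n ^ (e + 1)` and `(n + 1) ^ (e + 1)` -/
noncomputable def tp (e n : ℕ) (F : Finset ℤ) : ℕ :=
  ((Ioc (n ^ (e + 1)) ((n + 1) ^ (e + 1))).filter (fun m : ℕ => ∀ v ∈ F,
    ((n ^ (e + 1) : ℕ) : ℤ) < (m : ℤ) + v ∧ (m : ℤ) + v < (((n + 1) ^ (e + 1) : ℕ) : ℤ) ∧
    ((m : ℤ) + v).toNat.Prime)).card

theorem tp_anti {e n : ℕ} {F F' : Finset ℤ} (h : F' ⊆ F) : tp e n F ≤ tp e n F' := by
  classical
  unfold tp
  apply card_le_card
  intro m hm
  rw [mem_filter] at hm ⊢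
  exact ⟨hm.1, fun v hv => hm.2 v (h hv)⟩

open Classical in
/-- for at least `c X` of the `n < X` there are at least `n ^ e / (log n) ^ C` tuples between the powers -/
def GP (e : ℕ) (c : ℝ) (C X : ℕ) (F : Finset ℤ) : Prop :=
  c * X ≤ (((range X).filter (fun n : ℕ => 3 ≤ n ∧ (n : ℝ) ^ e / (Real.log n) ^ C ≤ (tp e n F : ℝ))).card : ℝ)

theorem GP_mono {e : ℕ} {c c' : ℝ} {C C' X : ℕ} {F : Finset ℤ} (hc : c' ≤ c) (hC : C ≤ C')
    (hF : GP e c C X F) : GP e c' C' X F := by
  classical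
  refine (mul_le_mul_of_nonneg_right hc (Nat.cast_nonneg X)).trans (le_trans hF ?_)
  rw [Nat.cast_le]
  apply card_le_card
  intro n hn
  rw [mem_filter] at hn ⊢
  obtain ⟨h1, h2, h3⟩ := hn
  refine ⟨h1, h2, le_trans ?_ h3⟩
  have hn3 : (3 : ℝ) ≤ n := by exact_mod_cast h2
  have hl : 1 ≤ Real.log n := by
    rw [Real.le_log_iff_exp_le (by linarith)]
    have := Real.exp_one_lt_d9
    linarith
  exact div_le_div_of_nonneg_left (by positivity) (by positivity) (pow_le_pow_right₀ hl hC)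

theorem GP_anti {e : ℕ} {c : ℝ} {C X : ℕ} {F F' : Finset ℤ} (h : F' ⊆ F) (hF : GP e c C X F) :
    GP e c C X F' := by
  classical
  refine le_trans hF ?_
  rw [Nat.cast_le]
  apply card_le_card
  intro n hn
  rw [mem_filter] at hn ⊢
  exact ⟨hn.1, hn.2.1, hn.2.2.trans (by exact_mod_cast tp_anti h)⟩

theorem pow_gap (e n X : ℕ) (h : n + 1 ≤ X) : (n + 1) ^ (e + 1) ≤ n ^ (e + 1) + (e + 1) * X ^ e := by
  have h1 : ∀ j : ℕ, (n + 1) ^ (j + 1) ≤ n ^ (j + 1) + (j + 1) * (n + 1) ^ j := by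
    intro j
    induction j with
    | zero => simp
    | succ j ih =>
      have h2 : n ^ (j + 1) ≤ (n + 1) ^ (j + 1) := Nat.pow_le_pow_left (by omega) _
      calc (n + 1) ^ (j + 1 + 1) = (n + 1) ^ (j + 1) * n + (n + 1) ^ (j + 1) := by ring
        _ ≤ (n ^ (j + 1) + (j + 1) * (n + 1) ^ j) * n + (n + 1) ^ (j + 1) := by
            have := Nat.mul_le_mul_right n ih
            omega
        _ = n ^ (j + 1 + 1) + ((j + 1) * ((n + 1) ^ j * n) + (n + 1) ^ (j + 1)) := by ring
        _ ≤ n ^ (j + 1 + 1) + ((j + 1) * (n + 1) ^ (j + 1) + (n + 1) ^ (j + 1)) := by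
            have h3 : (n + 1) ^ j * n ≤ (n + 1) ^ (j + 1) := by
              rw [pow_succ]
              exact Nat.mul_le_mul_left _ (by omega)
            have := Nat.mul_le_mul_left (j + 1) h3
            omega
        _ = n ^ (j + 1 + 1) + (j + 1 + 1) * (n + 1) ^ (j + 1) := by ring
  refine (h1 e).trans ?_
  have := Nat.mul_le_mul_left (e + 1) (Nat.pow_le_pow_left h e)
  omega

theorem pow_loc (e X m : ℕ) (h0 : 1 ≤ m) (h1 : m ≤ X ^ (e + 1)) :
    ∃ n ∈ range X, m ∈ Ioc (n ^ (e + 1)) ((n + 1) ^ (e + 1)) := by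
  classical
  have hX : 1 ≤ X := by
    by_contra hcon
    have : X = 0 := by omega
    subst this
    simp at h1
    omega
  have hex : ∃ n, m ≤ (n + 1) ^ (e + 1) := ⟨X - 1, by
    have : X - 1 + 1 = X := by omega
    rw [this]; exact h1⟩
  refine ⟨Nat.find hex, ?_, ?_⟩
  · rw [mem_range]
    have h2 : Nat.find hex ≤ X - 1 := Nat.find_min' hex (by
      have : X - 1 + 1 = X := by omega
      rw [this]; exact h1)
    omega
  · rw [mem_Ioc]
    refine ⟨?_, Nat.find_spec hex⟩
    rcases Nat.eq_zero_or_pos (Nat.find hex) with h2 | h2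
    · rw [h2]
      simp
      omega
    · have h3 := Nat.find_min hex (m := Nat.find hex - 1) (by omega)
      have h4 : Nat.find hex - 1 + 1 = Nat.find hex := by omega
      rw [h4] at h3
      omega

theorem ev_small (e k : ℕ) (he : 1 ≤ e) (c R : ℝ) (hc : 0 < c) : ∀ᶠ X : ℕ in atTop,
    2 ^ (k + 1) * ((X : ℝ) ^ e / Real.log X ^ (k + 1)) + R ≤ c * ((X : ℝ) ^ e / Real.log X ^ k) := by
  have hlog : Tendsto (fun N : ℕ => Real.log (N : ℝ)) atTop atTop :=
    Real.tendsto_log_atTop.comp tendsto_natCast_atTop_atTop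
  have hsmall : ∀ᶠ N : ℕ in atTop, (2 * |R| / c) * (Real.log N) ^ k ≤ (N : ℝ) := by
    have h1 : Tendsto (fun N : ℕ => (Real.log (N : ℝ)) ^ k / (N : ℝ)) atTop (𝓝 0) := by
      have h2 := (Real.isLittleO_pow_log_id_atTop (n := k)).tendsto_div_nhds_zero
      exact h2.comp tendsto_natCast_atTop_atTop
    have h3 : Tendsto (fun N : ℕ => (2 * |R| / c) * ((Real.log (N : ℝ)) ^ k / (N : ℝ))) atTop (𝓝 0) := by
      simpa using h1.const_mul (2 * |R| / c)
    filter_upwards [h3.eventually (gt_mem_nhds (by norm_num : (0 : ℝ) < 1)),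
      eventually_gt_atTop 0] with N h4 h5
    have h6 : (0 : ℝ) < N := by exact_mod_cast h5
    have h7 : (2 * |R| / c) * ((Real.log N) ^ k / N) = (2 * |R| / c) * (Real.log N) ^ k / N := by ring
    rw [h7, div_lt_iff₀ h6] at h4
    linarith
  filter_upwards [hlog.eventually_ge_atTop (2 * 2 ^ (k + 1) / c + 1), hsmall, eventually_ge_atTop 1] with X h1 h2 h3
  have hX : (1 : ℝ) ≤ X := by exact_mod_cast h3
  have hL : (0 : ℝ) < Real.log X := by
    have : (0 : ℝ) ≤ 2 * 2 ^ (k + 1) / c := by positivity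
    linarith
  have hLk : (0 : ℝ) < Real.log X ^ k := by positivity
  set Q : ℝ := (X : ℝ) ^ e / Real.log X ^ k with hQ
  have hQ0 : 0 ≤ Q := by positivity
  have h4 : (X : ℝ) ^ e / Real.log X ^ (k + 1) = Q / Real.log X := by
    rw [pow_succ, ← div_div]
  have h5 : 2 ^ (k + 1) * (Q / Real.log X) ≤ c / 2 * Q := by
    have h6 : 2 ^ (k + 1) / Real.log X ≤ c / 2 := by
      rw [div_le_iff₀ hL]
      have h7 : 2 * 2 ^ (k + 1) / c ≤ Real.log X := by linarith
      rw [div_le_iff₀ hc] at h7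
      linarith
    have h7 : 2 ^ (k + 1) * (Q / Real.log X) = 2 ^ (k + 1) / Real.log X * Q := by ring
    rw [h7]
    exact mul_le_mul_of_nonneg_right h6 hQ0
  have h6 : R ≤ c / 2 * Q := by
    have h7 : (X : ℝ) ≤ (X : ℝ) ^ e := by
      calc (X : ℝ) = (X : ℝ) ^ 1 := (pow_one _).symm
        _ ≤ (X : ℝ) ^ e := pow_le_pow_right₀ hX he
    have h8 : 2 * |R| / c ≤ Q := by
      rw [hQ, le_div_iff₀ hLk]
      exact h2.trans h7
    rw [div_le_iff₀ hc] at h8
    have := le_abs_self R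
    linarith
  rw [h4]
  linarith

open Classical in
/-- the pigeonhole: rough values are spread over a positive proportion of the intervals -/
theorem pigeon (e k X R₀ : ℕ) (he : 1 ≤ e) (hX : 1024 ≤ X) (R : Finset ℕ) (F : Finset ℤ) (B c : ℝ) (hB : 0 < B)
    (hc : 0 < c) (hR : ∀ m ∈ R, 1 ≤ m ∧ m ≤ X ^ (e + 1) ∧ ((X ^ (e + 1) : ℕ) : ℝ) / 16 ≤ m ∧
      ∀ v ∈ F, ((m : ℤ) + v).toNat.Prime) (hF : ∀ v ∈ F, |v| ≤ R₀)
    (hupp : ∀ A : ℕ, ((R.filter (fun m => m ∈ Ioc A (A + (e + 1) * X ^ e))).card : ℝ) ≤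
      B * ((X : ℝ) ^ e / Real.log X ^ k))
    (hlow : 2 * c * (X * ((X : ℝ) ^ e / Real.log X ^ k)) ≤ R.card)
    (hsm : 2 ^ (k + 1) * ((X : ℝ) ^ e / Real.log X ^ (k + 1)) + (2 * R₀ + 1 : ℕ) ≤
      c * ((X : ℝ) ^ e / Real.log X ^ k)) : GP e (c / B) (k + 1) X F := by
  have hXr : (1024 : ℝ) ≤ X := by exact_mod_cast hX
  have hX0 : (0 : ℝ) < X := by linarith
  have hlogX : 0 < Real.log X := Real.log_pos (by linarith)
  set Q : ℝ := (X : ℝ) ^ e / Real.log X ^ k with hQ
  have hQ0 : 0 < Q := by positivity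
  set I : ℕ → Finset ℕ := fun n => R.filter (fun m => m ∈ Ioc (n ^ (e + 1)) ((n + 1) ^ (e + 1))) with hI
  have h1 : R ⊆ (range X).biUnion I := by
    intro m hm
    obtain ⟨h2, h3, -, -⟩ := hR m hm
    obtain ⟨n, hn1, hn2⟩ := pow_loc e X m h2 h3
    exact mem_biUnion.2 ⟨n, hn1, mem_filter.2 ⟨hm, hn2⟩⟩
  have h2 : R.card ≤ ∑ n ∈ range X, (I n).card := (card_le_card h1).trans card_biUnion_le
  -- each interval
  have h3 : ∀ n ∈ range X, ((I n).card : ℝ) ≤ B * Q := by
    intro n hn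
    refine le_trans ?_ (hupp (n ^ (e + 1)))
    rw [Nat.cast_le]
    apply card_le_card
    intro m hm
    obtain ⟨h4, h5⟩ := mem_filter.1 hm
    refine mem_filter.2 ⟨h4, ?_⟩
    rw [mem_Ioc] at h5 ⊢
    have := pow_gap e n X (by have := mem_range.1 hn; omega)
    omega
  -- the intervals which are not good
  have h4 : ∀ n ∈ range X, ¬ (3 ≤ n ∧ (n : ℝ) ^ e / Real.log n ^ (k + 1) ≤ (tp e n F : ℝ)) →
      ((I n).card : ℝ) ≤ c * Q := by
    intro n hn hbad0
    by_cases hne : (I n).Nonempty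
    swap
    · rw [not_nonempty_iff_eq_empty] at hne
      rw [hne, card_empty, Nat.cast_zero]
      positivity
    obtain ⟨m₀, hm₀⟩ := hne
    obtain ⟨h5, h6⟩ := mem_filter.1 hm₀
    have h7 := (hR m₀ h5).2.2.1
    have h8 : (m₀ : ℝ) ≤ ((n + 1 : ℕ) : ℝ) ^ (e + 1) := by exact_mod_cast (mem_Ioc.1 h6).2
    -- `n` is large
    have h9 : (X : ℝ) / 16 ≤ ((n + 1 : ℕ) : ℝ) := by
      by_contra hcon
      push Not at hcon
      have h10 : ((n + 1 : ℕ) : ℝ) ^ (e + 1) < ((X : ℝ) / 16) ^ (e + 1) :=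
        pow_lt_pow_left₀ hcon (Nat.cast_nonneg _) (by omega)
      have h11 : ((X : ℝ) / 16) ^ (e + 1) ≤ ((X ^ (e + 1) : ℕ) : ℝ) / 16 := by
        rw [div_pow]
        push_cast
        apply div_le_div_of_nonneg_left (by positivity) (by norm_num)
        calc (16 : ℝ) = 16 ^ 1 := by norm_num
          _ ≤ 16 ^ (e + 1) := pow_le_pow_right₀ (by norm_num) (by omega)
      linarith
    have hnX : n < X := mem_range.1 hn
    have hnXr : (n : ℝ) ≤ X := by exact_mod_cast hnX.le
    have hn32 : (X : ℝ) / 32 ≤ n := by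
      push_cast at h9
      linarith
    have hn0 : (0 : ℝ) < n := by linarith
    have hbad : (tp e n F : ℝ) < (n : ℝ) ^ e / Real.log n ^ (k + 1) := by
      by_contra hcon
      push Not at hcon
      apply hbad0
      refine ⟨?_, hcon⟩
      have : (3 : ℝ) ≤ n := by linarith
      exact_mod_cast this
    have hlogn : Real.log X / 2 ≤ Real.log n := by
      have h10 : √(X : ℝ) ≤ n := by
        have h11 : √(X : ℝ) * √(X : ℝ) = X := Real.mul_self_sqrt hX0.le
        by_contra hcon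
        push Not at hcon
        have h12 : (32 : ℝ) ≤ √(X : ℝ) := by
          rw [Real.le_sqrt' (by norm_num)]
          linarith
        nlinarith
      have h11 := Real.log_le_log (Real.sqrt_pos.2 hX0) h10
      rwa [Real.log_sqrt hX0.le] at h11
    have h10 : (n : ℝ) ^ e / Real.log n ^ (k + 1) ≤ 2 ^ (k + 1) * ((X : ℝ) ^ e / Real.log X ^ (k + 1)) := by
      have h11 : (Real.log X / 2) ^ (k + 1) ≤ Real.log n ^ (k + 1) :=
        pow_le_pow_left₀ (by positivity) hlogn _
      calc (n : ℝ) ^ e / Real.log n ^ (k + 1) ≤ (X : ℝ) ^ e / (Real.log X / 2) ^ (k + 1) := by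
            apply div_le_div₀ (by positivity) (pow_le_pow_left₀ hn0.le hnXr e) (by positivity) h11
        _ = _ := by
            rw [div_pow, div_div_eq_mul_div]
            ring
    -- all but few elements are tuples
    have h11 : (I n).card ≤ tp e n F + (2 * R₀ + 1) := by
      have h12 : I n ⊆ ((Ioc (n ^ (e + 1)) ((n + 1) ^ (e + 1))).filter (fun m : ℕ => ∀ v ∈ F,
          ((n ^ (e + 1) : ℕ) : ℤ) < (m : ℤ) + v ∧ (m : ℤ) + v < (((n + 1) ^ (e + 1) : ℕ) : ℤ) ∧
          ((m : ℤ) + v).toNat.Prime)) ∪ (Ioc (n ^ (e + 1)) (n ^ (e + 1) + R₀) ∪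
          Icc ((n + 1) ^ (e + 1) - R₀) ((n + 1) ^ (e + 1))) := by
        intro m hm
        obtain ⟨h13, h14⟩ := mem_filter.1 hm
        rw [mem_union, mem_union, mem_filter]
        by_cases ha : m ∈ Ioc (n ^ (e + 1)) (n ^ (e + 1) + R₀)
        · exact Or.inr (Or.inl ha)
        by_cases hb : m ∈ Icc ((n + 1) ^ (e + 1) - R₀) ((n + 1) ^ (e + 1))
        · exact Or.inr (Or.inr hb)
        refine Or.inl ⟨h14, fun v hv => ?_⟩
        have h15 := abs_le.1 (hF v hv)
        have h16 := (hR m h13).2.2.2 v hv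
        rw [mem_Ioc] at ha h14
        rw [mem_Icc] at hb
        refine ⟨by omega, by omega, h16⟩
      refine (card_le_card h12).trans ((card_union_le _ _).trans ?_)
      apply Nat.add_le_add_left
      refine (card_union_le _ _).trans ?_
      rw [Nat.card_Ioc, Nat.card_Icc]
      omega
    have h12 : ((I n).card : ℝ) ≤ tp e n F + (2 * R₀ + 1 : ℕ) := by exact_mod_cast h11
    linarith
  -- summation
  set G := (range X).filter (fun n : ℕ => 3 ≤ n ∧ (n : ℝ) ^ e / (Real.log n) ^ (k + 1) ≤ (tp e n F : ℝ)) with hG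
  have h5 : (R.card : ℝ) ≤ G.card * (B * Q) + X * (c * Q) := by
    calc (R.card : ℝ) ≤ ((∑ n ∈ range X, (I n).card : ℕ) : ℝ) := by exact_mod_cast h2
      _ = ∑ n ∈ range X, ((I n).card : ℝ) := by push_cast; rfl
      _ ≤ ∑ n ∈ range X, ((if n ∈ G then B * Q else 0) + c * Q) := by
          refine sum_le_sum fun n hn => ?_
          by_cases hnG : n ∈ G
          · rw [if_pos hnG]
            have := h3 n hn
            have : 0 ≤ c * Q := by positivity
            linarith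
          · rw [if_neg hnG, zero_add]
            exact h4 n hn fun h => hnG (mem_filter.2 ⟨hn, h⟩)
      _ = G.card * (B * Q) + X * (c * Q) := by
          rw [sum_add_distrib, sum_const, card_range, nsmul_eq_mul, sum_ite_mem]
          congr 1
          have h6 : range X ∩ G = G := inter_eq_right.2 (filter_subset _ _)
          rw [h6, sum_const, nsmul_eq_mul]
  show c / B * X ≤ (G.card : ℝ)
  have h6 : c * X * Q ≤ G.card * B * Q := by nlinarith
  have h7 : c * X ≤ G.card * B := le_of_mul_le_mul_right h6 hQ0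
  rw [div_mul_eq_mul_div, div_le_iff₀ hB]
  linarith

end Pool.Agent.N694.PW
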